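import Pool.Agent.Y139.SM.Rigid2
import Pool.Agent.Y139.SM.Final
import Pool.Agent.Y139.SM.Bessel

/-! The pole orders of the tensor square of the transcendental part bound the defects of all Artin
twists; if the tensor square has a simple pole there is at most one defect, and it determines the
pole orders of all tensor powers. -/

set_option autoImplicit false

namespace Pool.Agent.U437.SP

open Complex Filter Topology ComplexConjugate NumberField IsDedekindDomain Asymptotics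
  Pool.Agent.W401.Cheb Pool.Agent.W540.BE Pool.Agent.W353.L1 Polynomial Pool.Agent.Y139.SM
open Pool.Agent.H341R2 (lam lam_tendsto)
open Pool.Agent.W353.TD (ch IsPart rank)
open Pool.Agent.W353.PV (tF)
open Pool.Agent.W353.EF (LFun)
open Pool.Agent.W353.EH (edgePoint size HasOrder)
open Pool.Agent.W353.AT (tC abs_tC IsArtin exists_common tw_C IsTwistedSystem
  twistRank TwistDefect fixedDim)

section
variable {K : Type} [Field K] [NumberField K]

variable {l : ℕ} {X : Set (MvPolynomial (Fin l) (𝓞 K))}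
  {d m N : ℕ} {V : Type} [AddCommGroup V] [Module ℚ V] [FiniteDimensional ℚ V]
  {ρ : Representation ℚ (GK K) V}

/-- **Bessel's inequality with the pole order of the tensor square.** -/
theorem besselT (hmd : m ≤ d) (hV : IsPart X d m N ρ) {κ : Type} [Fintype κ] (n : κ → ℕ)
    (χ : ∀ k, Representation ℂ (GK K) (Fin (n k) → ℂ))
    (B : κ → HeightOneSpectrum (𝓞 K) → ℂ[X]) (B₂ : HeightOneSpectrum (𝓞 K) → ℂ[X])
    (hA : ∀ k, IsArtin (χ k)) (hirr : ∀ k, (χ k).IsIrreducible)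
    (hne : ∀ k k', k ≠ k' → IsEmpty ((χ k).Equiv (χ k')))
    (hB : ∀ k, IsTwistedSystem X d (2 * m) N (χ k) 0 (B k))
    (hB₂ : IsTensorSystem X d m N ρ 2 (1 : Representation ℂ (GK K) (Fin 1 → ℂ)) B₂)
    {η : ℝ} (hη : 0 < η) :
    ∀ᶠ ε : ℝ in 𝓝[>] 0, ∑ k, (size (2 * m) 0 (B k) ε - twistRank ρ (χ k)) ^ 2 ≤
      size (2 * (2 * m)) 0 B₂ ε + η := by
  classical
  have hm : 2 * m ≤ 2 * d := by omega
  choose σ hσ using exists_isFrob (F := K)
  have hgood := good_of_part hm hV hσ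
  obtain ⟨U, hUn, hU, hχ⟩ := exists_common χ hA
  have hfin : Finite (GK K ⧸ U) := Subgroup.quotient_finite_of_isOpen U hU
  have h1 := fun k => tw_C hm hσ hgood hV.1 ⟨n k, χ k⟩ (hA k) (B k) (hB k)
  have g2 := (tensor_size hm hσ hgood 2 _ one_artin B₂ hB₂).2
  exact bessel_two U hU Finset.univ χ hχ (fun _ => (0 : ℝ)) σ hσ
    (T := tC ρ X d (2 * m) N (N - Module.finrank ℚ V) σ)
    (s := (N - Module.finrank ℚ V : ℕ)) (Nat.cast_nonneg _) (fun v => abs_tC _ _ _ _ _ _ _ _)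
    (x := fun k ε => size (2 * m) 0 (B k) ε - twistRank ρ (χ k))
    (fun k _ => (h1 k).2) (S := size (2 * (2 * m)) 0 B₂) (by
      refine g2.congr fun ε => ?_
      simp only [RR_one, mul_one, pow_two])
    (fun k _ => hirr k) (fun k _ k' _ h _ => hne k k' h) hη

/-- **Rigidity for the tensor powers of the transcendental part.** -/
theorem rigidT (hmd : m ≤ d) (hV : IsPart X d m N ρ) {n : ℕ}
    {χ : Representation ℂ (GK K) (Fin n → ℂ)}
    (hχ : IsArtin χ) (hirr : χ.IsIrreducible) {B₁ B₂ : HeightOneSpectrum (𝓞 K) → ℂ[X]}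
    (hB₁ : IsTwistedSystem X d (2 * m) N χ 0 B₁)
    (hB₂ : IsTensorSystem X d m N ρ 2 (1 : Representation ℂ (GK K) (Fin 1 → ℂ)) B₂)
    {e : ℝ} (he : e = 1 ∨ e = -1)
    (r : ℕ) {n' : ℕ} {ψ : Representation ℂ (GK K) (Fin n' → ℂ)} (hψ : IsArtin ψ)
    {n'' : ℕ} {θ : Representation ℂ (GK K) (Fin n'' → ℂ)} (hθ : IsArtin θ)
    (hc : ∀ g, θ.character g = χ.character g ^ r * ψ.character g)
    {B : HeightOneSpectrum (𝓞 K) → ℂ[X]} (hB : IsTensorSystem X d m N ρ r ψ B)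
    {δ η : ℝ} (hδ : 0 < δ) (hη : 0 < η) :
    ∀ᶠ ε : ℝ in 𝓝[>] 0,
      0 ≤ size (2 * (2 * m)) 0 B₂ ε + 2 * e * (size (2 * m) 0 B₁ ε - twistRank ρ χ) + 1 + η ∧
      |size (2 * (r * m)) 0 B ε - (-e) ^ r * Module.finrank ℂ θ.invariants| ≤
        r * (((N - Module.finrank ℚ V : ℕ) : ℝ) + n) ^ (r - 1) * n' *
          ((δ + (size (2 * (2 * m)) 0 B₂ ε + 2 * e * (size (2 * m) 0 B₁ ε - twistRank ρ χ) + 1)
            / δ) / 2) + η := by
  classical
  have hm : 2 * m ≤ 2 * d := by omega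
  choose σ hσ using exists_isFrob (F := K)
  have hgood := good_of_part hm hV hσ
  obtain ⟨U, hUn, hU, hx1⟩ := exists_common (κ := Unit) (n := fun _ => n)
    (fun _ => χ) fun _ => hχ
  have hx1 : ∀ u ∈ U, χ u = 1 := hx1 ()
  have hfin : Finite (GK K ⧸ U) := Subgroup.quotient_finite_of_isOpen U hU
  obtain ⟨U', hUn', hU', hx1'⟩ := exists_common (κ := Unit) (n := fun _ => n')
    (fun _ => ψ) fun _ => hψ
  have hx1' : ∀ u ∈ U', ψ u = 1 := hx1' ()
  have hfin' : Finite (GK K ⧸ U') := Subgroup.quotient_finite_of_isOpen U' hU'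
  have g1 := (tw_C hm hσ hgood hV.1 ⟨n, χ⟩ hχ B₁ hB₁).2
  have g2 := (tensor_size hm hσ hgood 2 _ one_artin B₂ hB₂).2
  have g3 := (tensor_size hm hσ hgood r ψ hψ B hB).2
  refine core_rigid (K := K) (T := tC ρ X d (2 * m) N (N - Module.finrank ℚ V) σ)
    (c := fun v => χ.character (σ v)⁻¹)
    (w := fun v => ψ.character (σ v)⁻¹) (s := (N - Module.finrank ℚ V : ℕ)) (a := n) (b := n')
    (Nat.cast_nonneg _)
    (Nat.cast_nonneg _) (Nat.cast_nonneg _) (fun v => abs_tC _ _ _ _ _ _ _ _)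
    (fun v => norm_char_le U χ hx1 (σ v)⁻¹) (fun v => norm_char_le U' ψ hx1' (σ v)⁻¹)
    (has_norm χ hχ hirr σ hσ) (S₂ := size (2 * (2 * m)) 0 B₂)
    (x := fun ε => size (2 * m) 0 B₁ ε - twistRank ρ χ)
    (y := size (2 * (r * m)) 0 B) ?_ ?_ r ?_ (char_pow_mul hc hθ σ hσ) he hδ hη
  · refine g2.congr fun ε => ?_
    simp only [RR_one, mul_one]
  · refine g1.congr fun ε => ?_
    simp only [RR_zero]
  · refine g3.congr fun ε => ?_
    simp only [RR_zero]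

/-- The size of the twist tends to minus the defect, on the complement. -/
theorem defect_lim {n : ℕ} {χ : Representation ℂ (GK K) (Fin n → ℂ)} {δ : ℤ}
    {B : HeightOneSpectrum (𝓞 K) → ℂ[X]}
    (h : Tendsto (size (2 * m) 0 B) (𝓝[>] 0) (𝓝 ((twistRank ρ χ : ℝ) - δ))) :
    Tendsto (fun ε => size (2 * m) 0 B ε - twistRank ρ χ) (𝓝[>] 0) (𝓝 (-(δ : ℝ))) := by
  have h1 := h.sub_const (twistRank ρ χ : ℝ)
  have e : ((twistRank ρ χ : ℝ) - δ) - twistRank ρ χ = -(δ : ℝ) := by ring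
  rwa [e] at h1

/-- **The sum of the squares of the defects is at most the pole order of the tensor square.** -/
theorem sum_sq (hmd : m ≤ d) (hV : IsPart X d m N ρ) {κ : Type} [Fintype κ] (n : κ → ℕ)
    (χ : ∀ k, Representation ℂ (GK K) (Fin (n k) → ℂ)) (δ : κ → ℤ)
    (hA : ∀ k, IsArtin (χ k)) (hirr : ∀ k, (χ k).IsIrreducible)
    (hne : ∀ k k', k ≠ k' → IsEmpty ((χ k).Equiv (χ k')))
    (hδ : ∀ k, TwistDefect X d m N ρ (χ k) (δ k)) {k₂ : ℕ}
    (h2 : TensorPole X d m N ρ 2 (1 : Representation ℂ (GK K) (Fin 1 → ℂ)) k₂) :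
    ∑ k, δ k ^ 2 ≤ (k₂ : ℤ) := by
  classical
  choose B hB hlim using hδ
  obtain ⟨B₂, hB₂, hl₂⟩ := h2
  have h1 : Tendsto (fun ε => ∑ k, (size (2 * m) 0 (B k) ε - twistRank ρ (χ k)) ^ 2) (𝓝[>] 0)
      (𝓝 (∑ k, (-(δ k : ℝ)) ^ 2)) :=
    tendsto_finsetSum _ fun k _ => (defect_lim (hlim k)).pow 2
  have h3 : ∑ k, (-(δ k : ℝ)) ^ 2 ≤ (k₂ : ℝ) := by
    refine le_of_forall_pos_le_add fun η hη => ?_
    exact le_of_tendsto_of_tendsto h1 (hl₂.add_const η)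
      (besselT hmd hV n χ B B₂ hA hirr hne hB hB₂ hη)
  have h4 : ∑ k, (δ k : ℝ) ^ 2 ≤ (k₂ : ℝ) := by
    simpa only [neg_sq] using h3
  exact_mod_cast h4

/-- **A defect and a simple pole of the tensor square determine all tensor powers.** -/
theorem rigid_defect (hmd : m ≤ d) (hV : IsPart X d m N ρ) {n : ℕ}
    {χ : Representation ℂ (GK K) (Fin n → ℂ)} (hχ : IsArtin χ) (hirr : χ.IsIrreducible)
    {δ : ℤ} (hδ : TwistDefect X d m N ρ χ δ) (hδ0 : δ ≠ 0)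
    (h2 : TensorPole X d m N ρ 2 (1 : Representation ℂ (GK K) (Fin 1 → ℂ)) 1) :
    (δ = 1 ∨ δ = -1) ∧
    ∀ (r n' n'' : ℕ) (ψ : Representation ℂ (GK K) (Fin n' → ℂ))
      (θ : Representation ℂ (GK K) (Fin n'' → ℂ)) (B : HeightOneSpectrum (𝓞 K) → ℂ[X]),
      IsArtin ψ → IsArtin θ → (∀ g, θ.character g = χ.character g ^ r * ψ.character g) →
      IsTensorSystem X d m N ρ r ψ B →
      Tendsto (size (2 * (r * m)) 0 B) (𝓝[>] 0)
        (𝓝 ((-δ : ℤ) ^ r * Module.finrank ℂ θ.invariants)) := by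
  classical
  have hs := sum_sq (κ := Unit) hmd hV (fun _ => n) (fun _ => χ) (fun _ => δ) (fun _ => hχ)
    (fun _ => hirr) (fun k k' h => absurd (Subsingleton.elim k k') h) (fun _ => hδ) h2
  rw [Finset.univ_unique, Finset.sum_singleton] at hs
  have hs' : δ ^ 2 ≤ 1 := by exact_mod_cast hs
  have hδ1 : δ = 1 ∨ δ = -1 := by
    have h1 : δ ≤ 1 := by nlinarith
    have h3 : -1 ≤ δ := by nlinarith
    omega
  refine ⟨hδ1, fun r n' n'' ψ θ B hψ hθ hc hB => ?_⟩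
  obtain ⟨B₁, hB₁, hlim⟩ := hδ
  obtain ⟨B₂, hB₂, hl₂⟩ := h2
  have t1 := defect_lim hlim
  have he : (δ : ℝ) = 1 ∨ (δ : ℝ) = -1 := by
    rcases hδ1 with h | h
    · left; rw [h]; norm_num
    · right; rw [h]; norm_num
  have hsq : (δ : ℝ) * δ = 1 := by rcases he with h | h <;> rw [h] <;> norm_num
  have hQ : Tendsto (fun ε => size (2 * (2 * m)) 0 B₂ ε +
      2 * (δ : ℝ) * (size (2 * m) 0 B₁ ε - twistRank ρ χ) + 1) (𝓝[>] 0) (𝓝 0) := by
    have h1 := (hl₂.add (t1.const_mul (2 * (δ : ℝ)))).add_const 1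
    have e : ((1 : ℕ) : ℝ) + 2 * (δ : ℝ) * -(δ : ℝ) + 1 = 0 := by
      push_cast
      linarith
    rwa [e] at h1
  have h5 := rigid_lim (C := r * (((N - Module.finrank ℚ V : ℕ) : ℝ) + n) ^ (r - 1) * n')
    (by positivity) hQ (y := size (2 * (r * m)) 0 B)
    (z := (-(δ : ℝ)) ^ r * Module.finrank ℂ θ.invariants)
    (fun δ' η hδ' hη => (rigidT hmd hV hχ hirr hB₁ hB₂ he r hψ hθ hc hB hδ' hη).mono
      fun ε hε => hε.2)
  push_cast
  exact h5

/-- **Tate's formula over all number fields, and the pole order of the tensor square.** -/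
theorem fields (hmd : m ≤ d) (hV : IsPart X d m N ρ) {k₂ : ℕ}
    (h2 : TensorPole X d m N ρ 2 (1 : Representation ℂ (GK K) (Fin 1 → ℂ)) k₂)
    (H : ∀ (n : ℕ) (χ : Representation ℂ (GK K) (Fin n → ℂ)), IsArtin χ →
      χ.IsIrreducible → ∃ δ : ℤ, TwistDefect X d m N ρ χ δ) :
    ∃ (κ : Type) (_ : Fintype κ) (n : κ → ℕ)
      (χ : ∀ k, Representation ℂ (GK K) (Fin (n k) → ℂ)) (δ : κ → ℤ),
      (∀ k, IsArtin (χ k) ∧ (χ k).IsIrreducible ∧ δ k ≠ 0 ∧ TwistDefect X d m N ρ (χ k) (δ k)) ∧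
      (∀ k k', k ≠ k' → IsEmpty ((χ k).Equiv (χ k'))) ∧
      ∑ k, δ k ^ 2 ≤ (k₂ : ℤ) ∧ Fintype.card κ ≤ k₂ ∧
      (∀ (n' : ℕ) (χ' : Representation ℂ (GK K) (Fin n' → ℂ)), IsArtin χ' →
        χ'.IsIrreducible → (∀ k, IsEmpty (χ'.Equiv (χ k))) → TwistDefect X d m N ρ χ' 0) ∧
      ∀ (F : IntermediateField K (AlgebraicClosure K)) [NumberField F]
        (B : HeightOneSpectrum (𝓞 F) → ℂ[X]), Pool.Agent.W353.EF.IsEulerSystem X d (2 * m) N B →
          (∀ᶠ ε : ℝ in 𝓝[>] 0, LFun B (((2 * m : ℕ) : ℂ) / 2 + 1 + ε) ≠ 0) ∧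
          Tendsto (Pool.Agent.W353.EF.size (2 * m) B) (𝓝[>] 0)
            (𝓝 ((rank ρ F : ℝ) - ∑ k, (δ k : ℝ) * fixedDim (χ k) F)) := by
  classical
  obtain ⟨κ, _, n, χ, δ, M, h1, hne, -, h4, -, -, h3⟩ :=
    (Pool.Agent.W353.AT.tateOverAllFields hmd hV).2 H
  have hs := sum_sq hmd hV n χ δ (fun k => (h1 k).1) (fun k => (h1 k).2.1) hne
    (fun k => (h1 k).2.2.2) h2
  refine ⟨κ, inferInstance, n, χ, δ, h1, hne, hs, ?_, h4, fun F _ B hB => (h3 F).1 B hB⟩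
  have h5 : (Fintype.card κ : ℤ) ≤ ∑ k, δ k ^ 2 := by
    have h6 : ∑ _k : κ, (1 : ℤ) ≤ ∑ k, δ k ^ 2 := by
      refine Finset.sum_le_sum fun k _ => ?_
      have h7 := (h1 k).2.2.1
      have h8 : 0 < δ k ^ 2 := by positivity
      omega
    simpa using h6
  exact_mod_cast h5.trans hs

/-- **At most one defect.** -/
theorem dichotomy (hmd : m ≤ d) (hV : IsPart X d m N ρ)
    (h2 : TensorPole X d m N ρ 2 (1 : Representation ℂ (GK K) (Fin 1 → ℂ)) 1)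
    (H : ∀ (n : ℕ) (χ : Representation ℂ (GK K) (Fin n → ℂ)), IsArtin χ →
      χ.IsIrreducible → ∃ δ : ℤ, TwistDefect X d m N ρ χ δ) :
    ((∀ (n : ℕ) (χ : Representation ℂ (GK K) (Fin n → ℂ)), IsArtin χ → χ.IsIrreducible →
        TwistDefect X d m N ρ χ 0) ∧
      ∀ (F : IntermediateField K (AlgebraicClosure K)) [NumberField F]
        (B : HeightOneSpectrum (𝓞 F) → ℂ[X]), Pool.Agent.W353.EF.IsEulerSystem X d (2 * m) N B →
        (∀ᶠ ε : ℝ in 𝓝[>] 0, LFun B (((2 * m : ℕ) : ℂ) / 2 + 1 + ε) ≠ 0) ∧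
        Tendsto (Pool.Agent.W353.EF.size (2 * m) B) (𝓝[>] 0) (𝓝 (rank ρ F : ℝ))) ∨
    ∃ (n : ℕ) (χ : Representation ℂ (GK K) (Fin n → ℂ)) (δ : ℤ),
      (δ = 1 ∨ δ = -1) ∧ IsArtin χ ∧ χ.IsIrreducible ∧ TwistDefect X d m N ρ χ δ ∧
      (∀ (n' : ℕ) (χ' : Representation ℂ (GK K) (Fin n' → ℂ)), IsArtin χ' →
        χ'.IsIrreducible → IsEmpty (χ'.Equiv χ) → TwistDefect X d m N ρ χ' 0) ∧
      (∀ (F : IntermediateField K (AlgebraicClosure K)) [NumberField F]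
        (B : HeightOneSpectrum (𝓞 F) → ℂ[X]), Pool.Agent.W353.EF.IsEulerSystem X d (2 * m) N B →
        (∀ᶠ ε : ℝ in 𝓝[>] 0, LFun B (((2 * m : ℕ) : ℂ) / 2 + 1 + ε) ≠ 0) ∧
        Tendsto (Pool.Agent.W353.EF.size (2 * m) B) (𝓝[>] 0)
          (𝓝 ((rank ρ F : ℝ) - δ * fixedDim χ F))) ∧
      ∀ (r n' n'' : ℕ) (ψ : Representation ℂ (GK K) (Fin n' → ℂ))
        (θ : Representation ℂ (GK K) (Fin n'' → ℂ)) (B : HeightOneSpectrum (𝓞 K) → ℂ[X]),
        IsArtin ψ → IsArtin θ → (∀ g, θ.character g = χ.character g ^ r * ψ.character g) →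
        IsTensorSystem X d m N ρ r ψ B →
        Tendsto (size (2 * (r * m)) 0 B) (𝓝[>] 0)
          (𝓝 ((-δ : ℤ) ^ r * Module.finrank ℂ θ.invariants)) := by
  classical
  obtain ⟨κ, _, n, χ, δ, h1, hne, hs, hcard, h4, h3⟩ := fields hmd hV h2 H
  have hcard' : Fintype.card κ ≤ 1 := hcard
  rcases Nat.lt_or_ge 0 (Fintype.card κ) with hpos | hzero
  · right
    have hu : Fintype.card κ = 1 := by omega
    obtain ⟨k0, hk0⟩ := Fintype.card_eq_one_iff.1 hu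
    obtain ⟨r1, r2⟩ := rigid_defect hmd hV (h1 k0).1 (h1 k0).2.1 (h1 k0).2.2.2 (h1 k0).2.2.1 h2
    refine ⟨n k0, χ k0, δ k0, r1, (h1 k0).1, (h1 k0).2.1, (h1 k0).2.2.2, ?_, ?_, r2⟩
    · intro n' χ' hA hi he
      refine h4 n' χ' hA hi fun k => ?_
      rw [hk0 k]
      exact he
    · intro F _ B hB
      refine ⟨(h3 F B hB).1, ?_⟩
      have h6 := (h3 F B hB).2
      have e : ∑ k, (δ k : ℝ) * fixedDim (χ k) F = δ k0 * fixedDim (χ k0) F := by
        rw [Finset.sum_eq_single k0 (fun b _ hb => absurd (hk0 b) hb)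
          (fun h => absurd (Finset.mem_univ _) h)]
      rwa [e] at h6
  · left
    have hκ : IsEmpty κ := Fintype.card_eq_zero_iff.1 (by omega)
    refine ⟨fun n' χ' hA hi => h4 n' χ' hA hi fun k => hκ.elim k, fun F _ B hB => ?_⟩
    refine ⟨(h3 F B hB).1, ?_⟩
    have h7 := (h3 F B hB).2
    rw [Finset.univ_eq_empty, Finset.sum_empty, sub_zero] at h7
    exact h7

end

end Pool.Agent.U437.SP
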